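import Pool.Agent.N95.PR.Gt
import Pool.Agent.N133.CC1
import Pool.Agent.N111.GG.Core

/-!
The base of the fibration defined by the values of several algebraic functions.
-/

set_option autoImplicit false
set_option linter.unusedSectionVars false
set_option linter.overlappingInstances false

open FF Module IntermediateField
open Pool.Agent.N111.GI (GenericCI)
open Pool.Agent.N111.FT (aclo mem_aclo subset_aclo aclo_le aclo_mono aclo_closed map_mem_aclo_iff)
open Pool.Agent.W602.GT (GeneralType coords)

namespace Pool.Agent.N95.PR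

section

variable {K L A : Type} [Field K] [Field L] [Field A] [Algebra K L] [Algebra K A] [Algebra L A]
  [IsScalarTower K L A]

/-- the elements of `L` which are algebraic over the field generated by the set -/
def base (K L : Type) {A : Type} [Field K] [Field L] [Field A] [Algebra K L] [Algebra K A]
    [Algebra L A] [IsScalarTower K L A] (S : Set A) : IntermediateField K L :=
  (aclo K S).comap (IsScalarTower.toAlgHom K L A)

theorem mem_base {S : Set A} {z : L} : z ∈ base K L S ↔ algebraMap L A z ∈ aclo K S := Iff.rfl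

theorem base_closed {S : Set A} {x : L} (h : IsAlgebraic (base K L S) x) : x ∈ base K L S := by
  rw [mem_base]
  apply aclo_closed
  let f : base K L S →+* aclo K S :=
    { toFun := fun y => ⟨algebraMap L A y, y.2⟩
      map_one' := Subtype.ext (map_one _)
      map_mul' := fun a b => Subtype.ext (map_mul _ _ _)
      map_zero' := Subtype.ext (map_zero _)
      map_add' := fun a b => Subtype.ext (map_add _ _ _) }
  exact h.ringHom_of_comp_eq f (algebraMap L A) f.injective rfl

theorem stable_of {S : Set A} (hS : ∀ (σ : A ≃ₐ[L] A), ∀ z ∈ S, σ z ∈ aclo K S)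
    (σ : A ≃ₐ[L] A) (x : A) (hx : x ∈ aclo K S) : σ x ∈ aclo K S := by
  have h1 := (map_mem_aclo_iff ((σ : A →ₐ[L] A).restrictScalars K) S x).2 hx
  refine aclo_le ?_ h1
  rintro _ ⟨z, hz, rfl⟩
  exact hS σ z hz

theorem alg_base [Normal L A] {S : Set A} (hS : ∀ (σ : A ≃ₐ[L] A), ∀ z ∈ S, σ z ∈ aclo K S)
    {x : A} (hx : x ∈ aclo K S) : IsAlgebraic (base K L S) x :=
  Pool.Agent.N133.CC.alg_of_stable (N := aclo K S) (fun σ x hx => stable_of hS σ x hx) hx

theorem trdeg_base {S : Set A} (hS : ∀ z ∈ aclo K S, IsAlgebraic (base K L S) z) :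
    Algebra.trdeg K (base K L S) = Algebra.trdeg K (adjoin K S) := by
  have hle : adjoin K S ≤ aclo K S := adjoin_le_iff.2 (subset_aclo S)
  let N := aclo K S
  let _ : Algebra (adjoin K S) N := (inclusion hle).toRingHom.toAlgebra
  have t1 : IsScalarTower K (adjoin K S) N := IsScalarTower.of_algebraMap_eq fun c => rfl
  have a1 : Algebra.IsAlgebraic (adjoin K S) N := by
    constructor
    rintro ⟨z, hz⟩
    obtain ⟨p, hp, hpz⟩ := mem_aclo.1 hz
    refine ⟨p, hp, ?_⟩
    apply Subtype.ext
    have h1 : ((Polynomial.aeval (⟨z, hz⟩ : N) p : N) : A) = Polynomial.aeval z p := by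
      rw [Polynomial.aeval_def, Polynomial.aeval_def, ← N.coe_val, ← RingHom.coe_coe,
        Polynomial.hom_eval₂]
      rfl
    rw [h1, hpz]
    rfl
  let f : base K L S →+* N :=
    { toFun := fun y => ⟨algebraMap L A y, y.2⟩
      map_one' := Subtype.ext (map_one _)
      map_mul' := fun a b => Subtype.ext (map_mul _ _ _)
      map_zero' := Subtype.ext (map_zero _)
      map_add' := fun a b => Subtype.ext (map_add _ _ _) }
  let _ : Algebra (base K L S) N := f.toAlgebra
  have t2 : IsScalarTower K (base K L S) N := IsScalarTower.of_algebraMap_eq fun c => by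
    apply Subtype.ext
    exact IsScalarTower.algebraMap_apply K L A c
  have a2 : Algebra.IsAlgebraic (base K L S) N := by
    constructor
    rintro ⟨z, hz⟩
    obtain ⟨p, hp, hpz⟩ := hS z hz
    refine ⟨p, hp, ?_⟩
    apply Subtype.ext
    have h1 : ((Polynomial.aeval (⟨z, hz⟩ : N) p : N) : A) = Polynomial.aeval z p := by
      rw [Polynomial.aeval_def, Polynomial.aeval_def, ← N.coe_val, ← RingHom.coe_coe,
        Polynomial.hom_eval₂]
      rfl
    rw [h1, hpz]
    rfl
  have h1 := Pool.Agent.N111.FT.trdeg_alg (k := K) (E := adjoin K S) (K := N)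
  have h2 := Pool.Agent.N111.FT.trdeg_alg (k := K) (E := base K L S) (K := N)
  rw [← h1, ← h2]

/-- **The degree over an algebraically closed subfield.** -/
theorem finrank_closed [CharZero K] {L₀ : IntermediateField K L}
    (hcl : ∀ z : L, IsAlgebraic L₀ z → z ∈ L₀) {S : Set A}
    [FiniteDimensional L₀ (adjoin L₀ S)] [FiniteDimensional L (adjoin L S)] :
    finrank L₀ (adjoin L₀ S) ≤ finrank L (adjoin L S) := by
  have hL : CharZero L := charZero_of_injective_algebraMap (algebraMap K L).injective
  have hL₀ : CharZero L₀ := charZero_of_injective_algebraMap (algebraMap K L₀).injective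
  obtain ⟨θ, hθ⟩ := Field.exists_primitive_element L₀ (adjoin L₀ S)
  have hθi : IsIntegral L₀ θ := Algebra.IsIntegral.isIntegral θ
  have hθi' : IsIntegral L₀ (θ : A) := hθi.map (adjoin L₀ S).val
  have hmin : minpoly L₀ (θ : A) = minpoly L₀ θ := by
    have := minpoly.algHom_eq (A := L₀) (adjoin L₀ S).val (adjoin L₀ S).val.injective θ
    exact this
  have hlift := Pool.Agent.N111.GG.minpoly_lift (k := K) hcl hθi'
  have h1 : Module.finrank L₀ (adjoin L₀ S) = (minpoly L₀ θ).natDegree := by
    rw [← IntermediateField.adjoin.finrank hθi, hθ, IntermediateField.finrank_top']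
  rw [h1, ← hmin, ← Polynomial.natDegree_map (algebraMap L₀ L), hlift]
  have h2 : adjoin L₀ S ≤ (adjoin L S).restrictScalars L₀ := by
    rw [adjoin_le_iff]
    exact subset_adjoin L S
  have h3 : (θ : A) ∈ adjoin L S := h2 θ.2
  have h4 := minpoly.algHom_eq (A := L) (adjoin L S).val (adjoin L S).val.injective ⟨θ, h3⟩
  have h5 : minpoly L (θ : A) = minpoly L (⟨θ, h3⟩ : adjoin L S) := h4
  rw [h5]
  exact minpoly.natDegree_le _

end

end Pool.Agent.N95.PR
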