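import Pool.Agent.N95.PR.Spn
import Pool.Agent.Y216.SV.Bog

/-!
Products of canonical forms on subfields.
-/

set_option autoImplicit false
set_option linter.unusedSectionVars false
set_option linter.overlappingInstances false

open FF Module Pool.Agent.W602.GT Pool.Agent.W603.LV Pool.Agent.W619.PQ Pool.Agent.Y172
open Pool.Agent.N111.GI Pool.Agent.N111.FT
open Pool.Agent.Y216.SV (yloc fd_of_fg)

namespace Pool.Agent.N95.PR

theorem det_block {K : Type} [Field K] {J : Type} [Fintype J] [LinearOrder J] {w : J → ℕ}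
    (Z : ∀ j, Matrix (Fin (w j)) (Fin (w j)) K) :
    (Matrix.blockDiagonal' Z).det = ∏ j, (Z j).det := by
  classical
  rw [(Matrix.blockTriangular_blockDiagonal' Z).det_fintype]
  refine Finset.prod_congr rfl fun j _ => ?_
  let e : Fin (w j) ≃ {p : Σ j, Fin (w j) // p.1 = j} :=
    { toFun := fun l => ⟨⟨j, l⟩, rfl⟩
      invFun := fun p => p.2 ▸ p.1.2
      left_inv := fun l => rfl
      right_inv := by
        rintro ⟨⟨i, l⟩, h⟩
        change i = j at h
        subst h
        rfl }
  rw [← Matrix.det_submatrix_equiv_self e]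
  congr 1
  ext a b
  rw [Matrix.submatrix_apply, Matrix.toSquareBlock_def, Matrix.of_apply]
  change Matrix.blockDiagonal' Z ⟨j, a⟩ ⟨j, b⟩ = _
  rw [Matrix.blockDiagonal'_apply_eq]

section

variable {k K : Type} [Field k] [CharZero k] [IsAlgClosed k] [Field K] [Algebra k K]
  {J : Type} [Fintype J] [LinearOrder J]

open IntermediateField.algebraAdjoinAdjoin in
/-- transcendence bases of subfields with the sum of the transcendence degrees -/
theorem basis_union {n : ℕ} (hn : Algebra.trdeg k K = n) (M : J → IntermediateField k K)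
    {w : J → ℕ} (hsum : ∑ j, w j = n) (halg : ∀ z : K, z ∈ aclo k (⋃ j, (M j : Set K)))
    {y : ∀ j, Fin (w j) → M j} (hy : ∀ j, IsTranscendenceBasis k (y j))
    (e : Fin n ≃ Σ j, Fin (w j)) :
    IsTranscendenceBasis k fun i => (y (e i).1 (e i).2 : K) := by
  set Y : Fin n → K := fun i => (y (e i).1 (e i).2 : K) with hY
  have h1 : ∀ z : K, z ∈ aclo k (Set.range Y) := by
    intro z
    refine aclo_le ?_ (halg z)
    refine Set.iUnion_subset fun j => ?_
    intro a ha
    have h2 : IsAlgebraic (IntermediateField.adjoin k (Set.range (y j))) (⟨a, ha⟩ : M j) :=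
      (hy j).isAlgebraic_field.isAlgebraic _
    have h3 : (⟨a, ha⟩ : M j) ∈ aclo k (Set.range (y j)) := mem_aclo.2 h2
    rw [← map_mem_aclo_iff (M j).val] at h3
    refine aclo_mono ?_ h3
    rintro _ ⟨_, ⟨l, rfl⟩, rfl⟩
    refine ⟨e.symm ⟨j, l⟩, ?_⟩
    have h5 : (fun r : Σ j, Fin (w j) => (y r.1 r.2 : K)) (e (e.symm ⟨j, l⟩)) = (y j l : K) := by
      rw [Equiv.apply_symm_apply]
    exact h5
  have h4 : Algebra.IsAlgebraic (IntermediateField.adjoin k (Set.range Y)) K :=
    ⟨fun z => mem_aclo.1 (h1 z)⟩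
  have h5 : Algebra.IsAlgebraic (Algebra.adjoin k (Set.range Y)) K :=
    (IsFractionRing.comap_isAlgebraic_iff (A := Algebra.adjoin k (Set.range Y))
      (K := IntermediateField.adjoin k (Set.range Y)) (C := K)).2 h4
  refine Algebra.IsAlgebraic.isTranscendenceBasis_of_le_trdeg_of_finite k Y ?_
  rw [hn]
  simp

theorem det_pluri {n : ℕ} (y : Fin n → K) (t : K) :
    IsPluri 1 (fun D : Fin n → Derivation k K K =>
      (Matrix.of fun i j => D i (y j) : Matrix (Fin n) (Fin n) K).det * t) := by
  intro A D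
  have e1 : (Matrix.of fun a b => (∑ j, A a j • D j) (y b)) =
      A * Matrix.of fun a b => D a (y b) := by
    ext a b
    rw [Matrix.of_apply, Matrix.mul_apply, sum_smul_apply]
    rfl
  change (Matrix.of fun a b => (∑ j, A a j • D j) (y b)).det * _ = _
  rw [e1, Matrix.det_mul, pow_one, mul_assoc]

/-- **Products of canonical forms.** -/
theorem prod_form {n : ℕ} (hn : Algebra.trdeg k K = n) (M : J → IntermediateField k K)
    {w : J → ℕ} (htr : ∀ j, Algebra.trdeg k (M j) = w j)
    (hfg : ∀ j, ∃ S : Set (M j), S.Finite ∧ IntermediateField.adjoin k S = ⊤)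
    (hsum : ∑ j, w j = n) (halg : ∀ z : K, z ∈ aclo k (⋃ j, (M j : Set K)))
    {N m : J → ℕ} (x : ∀ j, Fin (N j) → M j)
    (ω : ∀ j, (Fin (w j) → Derivation k (M j) (M j)) → M j) (hω : ∀ j, IsPluri 1 (ω j))
    (hne : ∀ j, ∃ E, ω j E ≠ 0)
    (hreg : ∀ j (f : Fin (m j) → Fin (N j)) (P : Place k (M j)), Divisorial (w j) P →
      RegAt P (fun D => (∏ l, x j (f l)) * ω j D)) :
    ∃ Ω : (Fin n → Derivation k K K) → K, IsPluri 1 Ω ∧ (∃ E, Ω E ≠ 0) ∧
      ∀ (g : ∀ j, Fin (m j) → Fin (N j)) (P : Place k K), Divisorial n P →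
        RegAt P (fun D => mult (fun j i => (x j i : K)) g * Ω D) := by
  classical
  choose y E hy hE using fun j => exists_crd (htr j)
  have hcard : Fintype.card (Fin n) = Fintype.card (Σ j, Fin (w j)) := by
    rw [Fintype.card_sigma, Fintype.card_fin]
    simp [hsum]
  let e : Fin n ≃ Σ j, Fin (w j) := Fintype.equivOfCardEq hcard
  set Y : Fin n → K := fun i => (y (e i).1 (e i).2 : K) with hY
  have hYb : IsTranscendenceBasis k Y := basis_union hn M hsum halg hy e
  set c : K := ∏ j, (ω j (E j) : K) with hc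
  have hc0 : c ≠ 0 := by
    rw [hc]
    refine Finset.prod_ne_zero_iff.2 fun j _ h0 => ?_
    obtain ⟨D, hD⟩ := hne j
    apply hD
    rw [pluri_coord (hy j) (hE j) (hω j) D]
    have h1 : ω j (E j) = 0 := Subtype.ext h0
    rw [h1, mul_zero]
  refine ⟨_, det_pluri Y c, ?_, ?_⟩
  · obtain ⟨D, hD⟩ := Pool.Agent.TH710.SP.dform_ne hn hYb.1
    refine ⟨D, ?_⟩
    rw [dform_apply] at hD
    change (Matrix.of fun i j => D i (Y j) : Matrix (Fin n) (Fin n) K).det * c ≠ 0
    rw [hD, one_mul]
    exact hc0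
  · intro g P hP D hD
    have hloc : ∀ j, ∃ (Z : Matrix (Fin (w j)) (Fin (w j)) K) (z : Fin (w j) → K),
        (∀ c, P.Reg (z c)) ∧ (∀ (D : Derivation k K K) l, D (y j l : K) = ∑ c, Z l c * D (z c)) ∧
          Ge P 0 ((((∏ l, x j (g j l)) * ω j (E j) : M j) : K) * Z.det ^ 1) := by
      intro j
      obtain ⟨S, hS, htop⟩ := hfg j
      exact yloc k K (M j) (w j) n 1 (htr j) hn (fun y hy => fd_of_fg hS htop hy)
        (fun D => (∏ l, x j (g j l)) * ω j D) (fun A D => by
          change (∏ l, x j (g j l)) * ω j (fun i => ∑ j, A i j • D j) = _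
          rw [hω j A D]
          ring) (fun u hu => hreg j (g j) u hu) (y j) (E j) (hy j) (hE j) P hP
    choose Z z hz hexp hge using hloc
    have h1 : (Matrix.of fun i p => D i (Y p) : Matrix (Fin n) (Fin n) K).det =
        (Matrix.of fun i q => D i (z (e q).1 (e q).2) : Matrix (Fin n) (Fin n) K).det *
          ∏ j, (Z j).det := by
      rw [← det_block, ← Matrix.det_submatrix_equiv_self e (Matrix.blockDiagonal' Z),
        ← Matrix.det_transpose ((Matrix.blockDiagonal' Z).submatrix e e), ← Matrix.det_mul]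
      congr 1
      ext i p
      rw [Matrix.of_apply, Matrix.mul_apply]
      have h2 : ∀ q, (Matrix.of fun i q => D i (z (e q).1 (e q).2) : Matrix (Fin n) (Fin n) K) i q *
          ((Matrix.blockDiagonal' Z).submatrix e e).transpose q p =
          (fun r : Σ j, Fin (w j) => D i (z r.1 r.2) * Matrix.blockDiagonal' Z (e p) r) (e q) := by
        intro q
        rfl
      rw [Finset.sum_congr rfl fun q _ => h2 q]
      have h2' := Equiv.sum_comp e
        (fun r : Σ j, Fin (w j) => D i (z r.1 r.2) * Matrix.blockDiagonal' Z (e p) r)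
      refine Eq.trans ?_ h2'.symm
      rw [Fintype.sum_sigma, Finset.sum_eq_single (e p).1]
      · rw [hY, hexp]
        refine Finset.sum_congr rfl fun c _ => ?_
        have h3 : Matrix.blockDiagonal' Z (e p) ⟨(e p).1, c⟩ = Z (e p).1 (e p).2 c :=
          Matrix.blockDiagonal'_apply_eq Z (e p).1 (e p).2 c
        change _ = D i (z (e p).1 c) * _
        rw [h3, mul_comm]
      · intro j _ hj
        refine Finset.sum_eq_zero fun c _ => ?_
        have h3 : Matrix.blockDiagonal' Z (e p) ⟨j, c⟩ = 0 :=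
          Matrix.blockDiagonal'_apply_ne Z (e p).2 c (Ne.symm hj)
        rw [h3, mul_zero]
      · intro h
        exact absurd (Finset.mem_univ _) h
    have h2 : Ge P 0 ((Matrix.of fun i q => D i (z (e q).1 (e q).2) : Matrix (Fin n) (Fin n) K).det) :=
      Pool.Agent.W619.PQ.ge_det P _ fun i q => hD i _ (hz _ _)
    have h3 : mult (fun j i => (x j i : K)) g *
        ((Matrix.of fun i p => D i (Y p) : Matrix (Fin n) (Fin n) K).det * c) =
        (∏ j, ((((∏ l, x j (g j l)) * ω j (E j) : M j) : K) * (Z j).det ^ 1)) *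
          (Matrix.of fun i q => D i (z (e q).1 (e q).2) : Matrix (Fin n) (Fin n) K).det := by
      rw [h1, Finset.prod_mul_distrib, mult, hc]
      have h4 : ∏ j, (((∏ l, x j (g j l)) * ω j (E j) : M j) : K) =
          (∏ j, ∏ l, (x j (g j l) : K)) * ∏ j, (ω j (E j) : K) := by
        rw [← Finset.prod_mul_distrib]
        refine Finset.prod_congr rfl fun j _ => ?_
        push_cast
        rfl
      rw [h4]
      simp only [pow_one]
      ring
    change P.Reg (mult (fun j i => (x j i : K)) g *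
      ((Matrix.of fun i p => D i (Y p) : Matrix (Fin n) (Fin n) K).det * c))
    rw [h3]
    have h4 : Ge P 0 (∏ j, ((((∏ l, x j (g j l)) * ω j (E j) : M j) : K) * (Z j).det ^ 1)) := by
      have h5 := Ge.prod (P := P) Finset.univ
        (fun j => ((((∏ l, x j (g j l)) * ω j (E j) : M j) : K) * (Z j).det ^ 1))
        (fun _ => 0) (fun j _ => hge j)
      rwa [Finset.sum_const_zero] at h5
    have h5 := h4.mul h2
    rw [add_zero] at h5
    exact h5

end

end Pool.Agent.N95.PR
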