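import Pool.Agent.N95.PR.Form
import Pool.Agent.N111.GI.Maps

/-!
Fields over which several independent points of generic complete intersections have small degree.
-/

set_option autoImplicit false
set_option linter.unusedSectionVars false
set_option linter.overlappingInstances false

open FF Module IntermediateField
open Pool.Agent.N111.GI (GenericCI twisted)
open Pool.Agent.N111.FT (aclo mem_aclo subset_aclo aclo_le aclo_mono aclo_closed map_mem_aclo_iff)
open Pool.Agent.W602.GT (GeneralType coords IsPluri RegAt Divisorial)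

namespace Pool.Agent.N95.PR

/-- the ratios of the homogeneous coordinates -/
def ratios {E : Type} [Field E] {n : ℕ} (x : Fin (n + 1) → E) : Set E :=
  {z | ∃ i j, x j ≠ 0 ∧ z = x i / x j}

theorem adjoin_ratios {R E : Type} [Field R] [Field E] [Algebra R E] {n : ℕ}
    {x : Fin (n + 1) → E} {c : Fin (n + 1)} (hc : x c ≠ 0) :
    adjoin R (ratios x) = adjoin R (Set.range fun i => x i / x c) := by
  apply le_antisymm
  · rw [adjoin_le_iff]
    rintro z ⟨i, j, hj, rfl⟩
    have h2 : x i / x j = (x i / x c) / (x j / x c) := by field_simp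
    rw [h2]
    exact div_mem (subset_adjoin _ _ ⟨i, rfl⟩) (subset_adjoin _ _ ⟨j, rfl⟩)
  · rw [adjoin_le_iff]
    rintro _ ⟨i, rfl⟩
    exact subset_adjoin _ _ ⟨i, c, hc, rfl⟩

/-- values of forms at the points with coordinates in a subfield -/
theorem aeval_crd {K E : Type} [Field K] [Field E] [Algebra K E] {n e : ℕ}
    {x : Fin (n + 1) → E} {c : Fin (n + 1)}
    {G : MvPolynomial (Fin (n + 1)) K} (hG : G.IsHomogeneous e)
    (h : MvPolynomial.aeval x G = 0) :
    MvPolynomial.aeval (crd K fun i => x i / x c) G = 0 := by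
  apply (algebraMap (fld K fun i => x i / x c) E).injective
  rw [map_zero]
  have h1 : algebraMap (fld K fun i => x i / x c) E
      (MvPolynomial.aeval (crd K fun i => x i / x c) G) =
      MvPolynomial.aeval (fun j => x j / x c) G := by
    rw [← MvPolynomial.aeval_algebraMap_apply]
    rfl
  rw [h1, Pool.Agent.N111.GI.aeval_div hG, h, mul_zero]

theorem gt_free {k K L L' : Type} [Field k] [Field K] [CharZero K] [IsAlgClosed K] [Algebra k K]
    [Field L] [Field L'] [Algebra K L] [Algebra K L'] [Algebra L L'] [IsScalarTower K L L']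
    [FiniteDimensional L L'] [Algebra.EssFiniteType K L] {J : Type} [Fintype J] [LinearOrder J]
    {n : ℕ} (hn : Algebra.trdeg K L = n) (X : J → GenericCI k K) (r w : J → ℕ)
    (x : ∀ j, Fin ((X j).n + 1) → L') (hx : ∀ j, (X j).Point (x j))
    (hr : ∀ j, finrank L (adjoin L (ratios (x j))) ≤ r j)
    (hw : ∀ j, Algebra.trdeg K (adjoin K (ratios (x j))) = w j) (hpos : ∀ j, 0 < w j)
    (hd : ∀ j, 2 * (X j).m + 2 * r j ≤ ∑ a, ((X j).d a + 1) + w j) (hsum : ∑ j, w j = n)
    (hgen : adjoin L (⋃ j, ratios (x j)) = ⊤)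
    (halg : ∀ z : L', z ∈ aclo K (⋃ j, ratios (x j))) : GeneralType K L n := by
  classical
  have hess : Algebra.EssFiniteType K L' := Algebra.EssFiniteType.comp K L L'
  have hn' : Algebra.trdeg K L' = n := Pool.Agent.Y172.trdeg_up (K := L) hn
  have hL : CharZero L := charZero_of_injective_algebraMap (algebraMap K L).injective
  have hc : ∀ j, ∃ c, x j c ≠ 0 := fun j => Function.ne_iff.1 (hx j).ne
  choose c hc using hc
  -- the normalized points
  let x1 : ∀ j, Fin ((X j).n + 1) → L' := fun j i => x j i / x j (c j)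
  let M : J → IntermediateField K L' := fun j => fld K (x1 j)
  have hM : ∀ j, adjoin K (ratios (x j)) = M j := fun j => adjoin_ratios (hc j)
  have hML : ∀ j, adjoin L (ratios (x j)) = fld L (x1 j) := fun j => adjoin_ratios (hc j)
  have hc1 : ∀ j, x1 j (c j) = 1 := fun j => div_self (hc j)
  have htr : ∀ j, Algebra.trdeg K (M j) = w j := fun j => by
    rw [← hM j]
    exact hw j
  have hpos1 : ∀ j, 0 < r j := fun j => lt_of_lt_of_le Module.finrank_pos (hr j)
  -- the forms
  have hform : ∀ j, ∃ ω : (Fin (w j) → Derivation K (M j) (M j)) → M j, IsPluri 1 ω ∧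
      (∃ E, ω E ≠ 0) ∧ ∀ (f : Fin (2 * r j - 1) → Fin ((X j).n + 1)) (P : Place K (M j)),
        Divisorial (w j) P → RegAt P (fun D => (∏ l, crd K (x1 j) (f l)) * ω D) := by
    intro j
    have hco : coords K (crd K (x1 j)) = ⊤ := by
      rw [eq_top_iff, ← adjoin_crd (L := K) (x1 j), adjoin_le_iff]
      rintro _ ⟨i, rfl⟩
      refine subset_adjoin _ _ ⟨i, c j, ?_, ?_⟩
      · intro h0
        have h1 := congrArg Subtype.val h0
        exact one_ne_zero ((hc1 j).symm.trans h1)
      · have h1 : crd K (x1 j) (c j) = 1 := Subtype.ext (hc1 j)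
        rw [h1, div_one]
    obtain ⟨ω, h1, h2, h3⟩ := twisted (k0 := algebraicClosure k K) (K := K) (L := M j)
      (ex := 2 * r j - 1) (X j).V (X j).V_form (X j).V_dim Finset.univ (hpos j) (by
        have h1 := hd j
        have h2 := hpos1 j
        have h3 : ∑ a, ((X j).d a + 1) = ∑ a, (X j).d a + (Finset.univ : Finset (X j).A).card := by
          rw [Finset.sum_add_distrib, Finset.sum_const, smul_eq_mul, mul_one]
        omega) (X j).F (X j).F_form (X j).I₀ (X j).coeff_ne (X j).generic.algebraicClosure (htr j)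
      (x := crd K (x1 j)) (c0 := c j) (by
        intro h0
        have h1 := congrArg Subtype.val h0
        exact one_ne_zero ((hc1 j).symm.trans h1)) (by
        rw [hco]
        infer_instance) (fun f hf => by
        obtain ⟨e, he⟩ := (X j).V_form f hf
        exact aeval_crd (he.map _) ((hx j).mem_V f hf))
      (fun a _ => aeval_crd ((X j).F_form a) ((hx j).mem_F a))
      (fun b hb => absurd (Finset.mem_univ b) hb)
    refine ⟨ω, h1, h2, fun f P hP => ?_⟩
    have h4 := (h3 f P hP).2 (by
      rintro ⟨b, hb, -⟩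
      exact hb (Finset.mem_univ b))
    have h5 : ∀ l, crd K (x1 j) (f l) / crd K (x1 j) (c j) = crd K (x1 j) (f l) := by
      intro l
      have h1 : crd K (x1 j) (c j) = 1 := Subtype.ext (hc1 j)
      rw [h1, div_one]
    simp only [h5] at h4
    exact h4
  choose ω hω hne hreg using hform
  have hMsub : ∀ j, ratios (x j) ⊆ (M j : Set L') := fun j => by
    rw [← hM j]
    exact subset_adjoin _ _
  obtain ⟨Ω, hΩ, hΩne, hΩreg⟩ := prod_form (N := fun j => (X j).n + 1)
    (m := fun j => 2 * r j - 1) hn' M htr
    (fun j => ⟨Set.range (crd K (x1 j)), Set.finite_range _, adjoin_crd (x1 j)⟩) hsum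
    (fun z => aclo_le (Set.iUnion_subset fun j a ha =>
      subset_aclo _ (Set.mem_iUnion.2 ⟨j, hMsub j ha⟩)) (halg z))
    (fun j => crd K (x1 j)) ω hω hne hreg
  have hgen' : adjoin L (⋃ j, Set.range (x1 j)) = ⊤ := by
    rw [eq_top_iff, ← hgen, adjoin_le_iff]
    refine Set.iUnion_subset fun j => ?_
    intro a ha
    have h1 : a ∈ adjoin L (ratios (x j)) := subset_adjoin _ _ ha
    rw [hML j] at h1
    exact adjoin.mono L _ _ (Set.subset_iUnion (fun j => Set.range (x1 j)) j) h1
  have hr' : ∀ j, finrank L (fld L (x1 j)) ≤ r j := fun j => by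
    rw [← hML j]
    exact hr j
  refine gt_abs hn (mult x1) hΩ (fun g P hP => hΩreg g P hP) hΩne
    (span_mult K hc1 hgen' fun j => by
      have h1 := hr' j
      have h2 := hpos1 j
      omega) fun E h cc hh _ hE z => ?_
  have h1 : ∀ j i, IsAlgebraic E (x1 j i) := fun j i =>
    coords_alg (m := fun j => 2 * r j - 1) hc1 hgen' (fun j => by
      have h1 := hr' j
      have h2 := hpos1 j
      omega) hh hE j i
  -- all elements are algebraic over `E`
  have h2 : ⋃ j, ratios (x j) ⊆ ((algebraicClosure E L').restrictScalars K : Set L') := by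
    refine Set.iUnion_subset fun j => ?_
    intro a ha
    have h3 : M j ≤ (algebraicClosure E L').restrictScalars K := by
      rw [adjoin_le_iff]
      rintro _ ⟨i, rfl⟩
      change x1 j i ∈ algebraicClosure E L'
      rw [mem_algebraicClosure_iff]
      exact h1 j i
    exact h3 (hMsub j ha)
  have h3 : IsAlgebraic (adjoin K (⋃ j, ratios (x j))) z := mem_aclo.1 (halg z)
  have h4 : adjoin K (⋃ j, ratios (x j)) ≤ (algebraicClosure E L').restrictScalars K :=
    adjoin_le_iff.2 h2
  have h5 : IsAlgebraic (algebraicClosure E L') z := by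
    obtain ⟨q, hq, hqx⟩ := h3
    let φ : adjoin K (⋃ j, ratios (x j)) →+* algebraicClosure E L' :=
      (IntermediateField.inclusion h4).toRingHom
    refine ⟨q.map φ, ?_, ?_⟩
    · rw [Ne, Polynomial.map_eq_zero]
      exact hq
    · rw [← hqx, Polynomial.aeval_def, Polynomial.eval₂_map, Polynomial.aeval_def]
      rfl
  exact h5.restrictScalars E

end Pool.Agent.N95.PR
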