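import Pool.Agent.N95.PR.Desc

/-!
Varieties with independent multi-valued maps to generic complete intersections.
-/

set_option autoImplicit false
set_option linter.unusedSectionVars false
set_option linter.overlappingInstances false

open FF Module IntermediateField
open Pool.Agent.N111.GI (GenericCI)
open Pool.Agent.N111.FT (aclo mem_aclo subset_aclo aclo_le aclo_mono aclo_closed map_mem_aclo_iff)
open Pool.Agent.W602.GT (GeneralType coords)

namespace Pool.Agent.N95.PR

/-- the ratios of the coordinates of the normalized point, in a subfield -/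
theorem ratios_norm {A : Type} [Field A] {n : ℕ} {x : Fin (n + 1) → A} {c : Fin (n + 1)}
    (hc : x c ≠ 0) : ratios (fun i => x i / x c) = ratios x := by
  ext z
  constructor
  · rintro ⟨i, j, hj, rfl⟩
    refine ⟨i, j, fun h => hj ?_, ?_⟩
    · simp only [h, zero_div]
    · field_simp
  · rintro ⟨i, j, hj, rfl⟩
    refine ⟨i, j, div_ne_zero hj hc, ?_⟩
    field_simp

theorem ratios_image {B A : Type} [Field B] [Field A] (f : B →+* A) {n : ℕ}
    (x : Fin (n + 1) → B) : f '' ratios x = ratios (fun i => f (x i)) := by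
  ext z
  constructor
  · rintro ⟨_, ⟨i, j, hj, rfl⟩, rfl⟩
    exact ⟨i, j, fun h => hj (f.injective (h.trans (map_zero f).symm)), map_div₀ f _ _⟩
  · rintro ⟨i, j, hj, rfl⟩
    exact ⟨x i / x j, ⟨i, j, fun h => hj (by
      change f (x j) = 0
      rw [h, map_zero]), rfl⟩, map_div₀ f _ _⟩

section

variable {k K L A : Type} [Field k] [Field K] [CharZero K] [IsAlgClosed K] [Algebra k K] [Field L]
  [Field A] [Algebra K L] [Algebra K A] [Algebra L A] [IsScalarTower K L A]

/-- **Fibrations over varieties of general type.** -/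
theorem fib_free [Normal L A] [Algebra.EssFiniteType K L] {J : Type} [Fintype J] [LinearOrder J]
    (X : J → GenericCI k K) (r w : J → ℕ)
    (x : ∀ j, Fin ((X j).n + 1) → A) (hx : ∀ j, (X j).Point (x j))
    (hr : ∀ j, finrank L (adjoin L (ratios (x j))) ≤ r j)
    (hw : ∀ j, Algebra.trdeg K (adjoin K (ratios (x j))) = w j) (hpos : ∀ j, 0 < w j)
    (hd : ∀ j, 2 * (X j).m + 2 * r j ≤ ∑ a, ((X j).d a + 1) + w j)
    (hind : Algebra.trdeg K (adjoin K (⋃ j, ratios (x j))) = (∑ j, w j : ℕ))
    (hconj : ∀ (σ : A ≃ₐ[L] A) j, ∀ z ∈ ratios (x j), σ z ∈ aclo K (⋃ j, ratios (x j))) :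
    GeneralType K (base K L (⋃ j, ratios (x j))) (∑ j, w j) := by
  classical
  obtain ⟨S, hS⟩ : ∃ S : Set A, S = ⋃ j, ratios (x j) := ⟨_, rfl⟩
  rw [← hS] at hind hconj ⊢
  have hconj' : ∀ (σ : A ≃ₐ[L] A), ∀ z ∈ S, σ z ∈ aclo K S := by
    intro σ z hz
    rw [hS, Set.mem_iUnion] at hz
    obtain ⟨j, hj⟩ := hz
    exact hconj σ j z hj
  let L₁ := base K L S
  have hess : Algebra.EssFiniteType K L₁ := Pool.Agent.N133.CC.ess_any L₁
  have halg : ∀ z ∈ aclo K S, IsAlgebraic L₁ z := fun z hz => alg_base hconj' hz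
  have hn : Algebra.trdeg K L₁ = (∑ j, w j : ℕ) := by
    rw [← hind]
    exact trdeg_base halg
  have hc : ∀ j, ∃ c, x j c ≠ 0 := fun j => Function.ne_iff.1 (hx j).ne
  choose c hc using hc
  -- the extension generated by the values
  have hSfin : S.Finite := by
    rw [hS]
    refine Set.finite_iUnion fun j => ?_
    refine (Set.finite_range fun p : Fin ((X j).n + 1) × Fin ((X j).n + 1) =>
      x j p.1 / x j p.2).subset ?_
    rintro z ⟨i, i', -, rfl⟩
    exact ⟨(i, i'), rfl⟩
  have hSint : ∀ z ∈ S, IsIntegral L₁ z := fun z hz => (halg z (subset_aclo S hz)).isIntegral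
  have hfS : Finite S := hSfin
  let L' : IntermediateField L₁ A := adjoin L₁ S
  have hfd : FiniteDimensional L₁ L' := finiteDimensional_adjoin hSint
  have hst : IsScalarTower K L₁ L' := inferInstance
  have hst2 : IsScalarTower K L' A := by
    refine IsScalarTower.of_algebraMap_eq fun z => ?_
    rw [IsScalarTower.algebraMap_apply K L₁ L', ← IsScalarTower.algebraMap_apply L₁ L' A,
      ← IsScalarTower.algebraMap_apply K L₁ A]
  have hsub : ∀ j, ratios (x j) ⊆ S := fun j => by
    rw [hS]
    exact Set.subset_iUnion (fun j => ratios (x j)) j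
  let x' : ∀ j, Fin ((X j).n + 1) → L' := fun j i =>
    ⟨x j i / x j (c j), subset_adjoin _ _ (hsub j ⟨i, c j, hc j, rfl⟩)⟩
  have hx'A : ∀ j i, algebraMap L' A (x' j i) = x j i / x j (c j) := fun j i => rfl
  have hev : ∀ j (e : ℕ) (P : MvPolynomial (Fin ((X j).n + 1)) K), P.IsHomogeneous e →
      MvPolynomial.aeval (x j) P = 0 → MvPolynomial.aeval (x' j) P = 0 := by
    intro j e P hP h
    apply (algebraMap L' A).injective
    rw [map_zero]
    have h1 : algebraMap L' A (MvPolynomial.aeval (x' j) P) =
        MvPolynomial.aeval (fun i => x j i / x j (c j)) P := by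
      rw [← MvPolynomial.aeval_algebraMap_apply]
      rfl
    rw [h1, Pool.Agent.N111.GI.aeval_div hP, h, mul_zero]
  have hx' : ∀ j, (X j).Point (x' j) := fun j =>
    { ne := fun h => by
        have h1 := congrArg (algebraMap L' A) (congrFun h (c j))
        rw [hx'A, div_self (hc j), Pi.zero_apply, map_zero] at h1
        exact one_ne_zero h1
      mem_V := fun f hf => by
        obtain ⟨e, he⟩ := (X j).V_form f hf
        exact hev j e _ (he.map _) ((hx j).mem_V f hf)
      mem_F := fun a => hev j _ _ ((X j).F_form a) ((hx j).mem_F a) }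
  have hrat : ∀ j, algebraMap L' A '' ratios (x' j) = ratios (x j) := fun j => by
    rw [ratios_image, ← ratios_norm (hc j)]
    rfl
  -- the images of the fields generated by the values
  have hadj : ∀ (R : Type) [Field R] [Algebra R L'] [Algebra R A] [IsScalarTower R L' A]
      (T : Set L'), (adjoin R T).map (IsScalarTower.toAlgHom R L' A) =
        adjoin R (algebraMap L' A '' T) := by
    intro R _ _ _ _ T
    rw [adjoin_map]
    rfl
  have hUn : algebraMap L' A '' (⋃ j, ratios (x' j)) = S := by
    rw [Set.image_iUnion, hS]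
    exact Set.iUnion_congr hrat
  have hst3 : IsScalarTower L₁ L' A := inferInstance
  refine gt_free (L := L₁) (L' := L') hn X r w x' hx' (fun j => ?_) (fun j => ?_) hpos hd rfl ?_ ?_
  · -- the degrees
    have h1 : finrank L₁ (adjoin L₁ (ratios (x' j))) = finrank L₁ (adjoin L₁ (ratios (x j))) := by
      rw [← hrat j, ← hadj L₁]
      exact ((adjoin L₁ (ratios (x' j))).equivMap _).toLinearEquiv.finrank_eq
    rw [h1]
    have hfr : Finite (ratios (x j)) := hSfin.subset (hsub j)
    have i1 : FiniteDimensional L₁ (adjoin L₁ (ratios (x j))) :=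
      finiteDimensional_adjoin fun z hz => hSint z (hsub j hz)
    have i2 : FiniteDimensional L (adjoin L (ratios (x j))) :=
      finiteDimensional_adjoin fun z hz => (hSint z (hsub j hz)).tower_top
    exact (finrank_closed (K := K) (fun z hz => base_closed hz)).trans (hr j)
  · rw [← hw j, ← hrat j, ← hadj K]
    exact ((adjoin K (ratios (x' j))).equivMap _).trdeg_eq
  · apply map_injective (IsScalarTower.toAlgHom L₁ L' A)
    rw [hadj L₁, hUn, ← AlgHom.fieldRange_eq_map]
    ext z
    constructor
    · intro hz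
      exact ⟨⟨z, hz⟩, rfl⟩
    · rintro ⟨y, rfl⟩
      exact y.2
  · intro z
    rw [← map_mem_aclo_iff (IsScalarTower.toAlgHom K L' A)]
    have h1 : (IsScalarTower.toAlgHom K L' A) '' (⋃ j, ratios (x' j)) = S := hUn
    rw [h1]
    -- `L'` is contained in the algebraic closure
    have h3 : ∀ y : L₁, algebraMap L₁ A y ∈ aclo K S := fun y => y.2
    let N : IntermediateField L₁ A :=
      { (aclo K S).toSubfield with
        algebraMap_mem' := h3 }
    have h4 : L' ≤ N := adjoin_le_iff.2 (subset_aclo S)
    exact h4 z.2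

end

end Pool.Agent.N95.PR
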