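import Pool.Agent.N95.PR.Tra

/-!
Products of the coordinates of several points: they span a finite extension, and the points whose
traces lie in a subfield are algebraic over it.
-/

set_option autoImplicit false
set_option linter.unusedSectionVars false
set_option linter.overlappingInstances false

open Module Pool.Agent.N111.GI
open scoped Pointwise

namespace Pool.Agent.N95.PR

section

variable {L K : Type} [Field L] [Field K] [Algebra L K]

/-- the field generated by the coordinates of a point -/
abbrev fld (L : Type) {K : Type} [Field L] [Field K] [Algebra L K] {N : ℕ} (x : Fin N → K) :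
    IntermediateField L K := IntermediateField.adjoin L (Set.range x)

/-- the coordinates in the field generated by them -/
def crd (L : Type) {K : Type} [Field L] [Field K] [Algebra L K] {N : ℕ} (x : Fin N → K)
    (i : Fin N) : fld L x := ⟨x i, IntermediateField.subset_adjoin _ _ ⟨i, rfl⟩⟩

theorem adjoin_crd {N : ℕ} (x : Fin N → K) :
    IntermediateField.adjoin L (Set.range (crd L x)) = ⊤ := by
  apply IntermediateField.map_injective (fld L x).val
  rw [← AlgHom.fieldRange_eq_map, IntermediateField.fieldRange_val, IntermediateField.adjoin_map]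
  congr 1
  rw [← Set.range_comp]
  rfl

end

section

variable {L K : Type} [Field L] [Field K] [Algebra L K] [FiniteDimensional L K]

/-- the powers of a generator -/
theorem mem_span_pow {F : IntermediateField L K} {u : F} (hu : IntermediateField.adjoin L {u} = ⊤)
    {A : Submodule L K} (hA : ∀ i < finrank L F, (u : K) ^ i ∈ A) (z : F) : (z : K) ∈ A := by
  have hint : IsIntegral L u := Algebra.IsIntegral.isIntegral u
  have hgen : Algebra.adjoin L {u} = ⊤ := by
    rw [← IntermediateField.adjoin_simple_toSubalgebra_of_isAlgebraic hint.isAlgebraic, hu,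
      IntermediateField.top_toSubalgebra]
  have hdeg : (minpoly L u).natDegree = finrank L F := by
    rw [← IntermediateField.adjoin.finrank hint, hu, IntermediateField.finrank_top']
  have hz : z ∈ Algebra.adjoin L {u} := by rw [hgen]; trivial
  rw [Algebra.adjoin_singleton_eq_range_aeval] at hz
  obtain ⟨p, hp⟩ := hz
  have hp' : Polynomial.aeval u (p %ₘ minpoly L u) = z := by
    rw [← hp]
    have h1 := Polynomial.modByMonic_add_div p (minpoly L u)
    conv_rhs => rw [← h1]
    change _ = Polynomial.aeval u _
    rw [map_add, map_mul, minpoly.aeval, zero_mul, add_zero]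
  have hlt : (p %ₘ minpoly L u).natDegree < finrank L F := by
    rw [← hdeg]
    refine Polynomial.natDegree_modByMonic_lt _ (minpoly.monic hint) ?_
    intro h1
    have h2 := minpoly.natDegree_pos hint
    rw [h1, Polynomial.natDegree_one] at h2
    exact lt_irrefl _ h2
  rw [← hp', Polynomial.aeval_eq_sum_range]
  have h3 : ((∑ i ∈ Finset.range ((p %ₘ minpoly L u).natDegree + 1),
      (p %ₘ minpoly L u).coeff i • u ^ i : F) : K) =
      ∑ i ∈ Finset.range ((p %ₘ minpoly L u).natDegree + 1),
        (p %ₘ minpoly L u).coeff i • (u : K) ^ i := by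
    change F.val _ = _
    rw [map_sum]
    rfl
  rw [h3]
  refine Submodule.sum_mem _ fun i hi => Submodule.smul_mem _ _ (hA i ?_)
  rw [Finset.mem_range] at hi
  omega

variable {k : Type} [Field k] [Infinite k] [Algebra k L] [Algebra.IsSeparable L K]
  {J : Type} [Fintype J] [DecidableEq J] {N m : J → ℕ}

theorem fld_le_pow (k : Type) [Field k] [Infinite k] [Algebra k L] {N m : ℕ} {x : Fin N → K}
    {j0 : Fin N} (hj0 : x j0 = 1)
    (hm : finrank L (fld L x) ≤ m + 1) :
    Subalgebra.toSubmodule (fld L x).toSubalgebra ≤ (Submodule.span L (Set.range x)) ^ m := by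
  have hsep : Algebra.IsSeparable L (fld L x) := inferInstance
  have hu := finite_bad (k := k) (adjoin_crd (L := L) x)
  obtain ⟨t, ht⟩ := hu.infinite_compl.nonempty
  have ht' : IntermediateField.adjoin L {∑ j : Fin N, algebraMap L (fld L x)
    (algebraMap k L (t ^ (j : ℕ))) * crd L x j} = ⊤ := not_not.1 ht
  intro z hz
  have h1S : (1 : K) ∈ Submodule.span L (Set.range x) := by
    rw [← hj0]
    exact Submodule.subset_span ⟨j0, rfl⟩
  have hu' : ((∑ j : Fin N, algebraMap L (fld L x) (algebraMap k L (t ^ (j : ℕ))) *
      crd L x j : fld L x) : K) ∈ Submodule.span L (Set.range x) := by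
    change (fld L x).val _ ∈ _
    rw [map_sum]
    refine Submodule.sum_mem _ fun j _ => ?_
    rw [← Algebra.smul_def, map_smul]
    exact Submodule.smul_mem _ _ (Submodule.subset_span ⟨j, rfl⟩)
  refine mem_span_pow ht' (A := (Submodule.span L (Set.range x)) ^ m) (fun i hi => ?_) ⟨z, hz⟩
  have h2 := Submodule.mul_mem_mul (Submodule.pow_mem_pow _ hu' i)
    (Submodule.pow_mem_pow _ h1S (m - i))
  rwa [one_pow, mul_one, ← pow_add, Nat.add_sub_cancel' (by omega)] at h2

/-- the products of the coordinates -/
def mult (x : ∀ j, Fin (N j) → K) (g : ∀ j, Fin (m j) → Fin (N j)) : K := ∏ j, ∏ l, x j (g j l)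

theorem adjoin_biUnion (x : ∀ j, Fin (N j) → K) (s : Finset J) :
    Subalgebra.toSubmodule (Algebra.adjoin L (⋃ j ∈ s, Set.range (x j))) =
      ∏ j ∈ s, Subalgebra.toSubmodule (Algebra.adjoin L (Set.range (x j))) := by
  induction s using Finset.induction_on with
  | empty =>
    rw [Finset.prod_empty, ← Algebra.toSubmodule_bot]
    simp
  | insert a s ha ih =>
    rw [Finset.prod_insert ha, ← ih, ← Algebra.adjoin_union_coe_submodule]
    congr 2
    simp

/-- **The products of the coordinates span.** -/
theorem span_mult (k : Type) [Field k] [Infinite k] [Algebra k L] {x : ∀ j, Fin (N j) → K}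
    {j0 : ∀ j, Fin (N j)} (hj0 : ∀ j, x j (j0 j) = 1)
    (hgen : IntermediateField.adjoin L (⋃ j, Set.range (x j)) = ⊤)
    (hm : ∀ j, finrank L (fld L (x j)) ≤ m j + 1) :
    Submodule.span L (Set.range (mult (m := m) x)) = ⊤ := by
  rw [eq_top_iff]
  intro z _
  have h1 : Algebra.adjoin L (⋃ j, Set.range (x j)) = ⊤ := by
    rw [← IntermediateField.adjoin_toSubalgebra_of_isAlgebraic
      (fun y _ => Algebra.IsAlgebraic.isAlgebraic y), hgen, IntermediateField.top_toSubalgebra]
  have h2 : z ∈ Subalgebra.toSubmodule (Algebra.adjoin L (⋃ j ∈ (Finset.univ : Finset J),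
      Set.range (x j))) := by
    have h3 : (⋃ j ∈ (Finset.univ : Finset J), Set.range (x j)) = ⋃ j, Set.range (x j) := by
      simp
    rw [h3, h1]
    trivial
  rw [adjoin_biUnion] at h2
  have h3 : ∏ j, Subalgebra.toSubmodule (Algebra.adjoin L (Set.range (x j))) ≤
      ∏ j, (Submodule.span L (Set.range (x j))) ^ (m j) := by
    refine Finset.prod_le_prod' fun j _ => ?_
    refine le_trans ?_ (fld_le_pow k (hj0 j) (hm j))
    exact IntermediateField.algebra_adjoin_le_adjoin L _
  have h4 := h3 h2
  have h5 : ∏ j, (Submodule.span L (Set.range (x j))) ^ (m j) =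
      Submodule.span L (∏ j, (Set.range (x j)) ^ (m j)) := by
    rw [← Submodule.prod_span]
    exact Finset.prod_congr rfl fun j _ => Submodule.span_pow _ _
  rw [h5] at h4
  refine Submodule.span_mono ?_ h4
  intro y hy
  rw [Set.mem_fintype_prod] at hy
  obtain ⟨v, hv, rfl⟩ := hy
  have h6 : ∀ j, ∃ g : Fin (m j) → Fin (N j), v j = ∏ l, x j (g l) := by
    intro j
    have h7 := hv j
    rw [Set.mem_pow] at h7
    obtain ⟨g, hg⟩ := h7
    choose f hf using fun i => (g i).2
    refine ⟨f, ?_⟩
    rw [← hg, List.prod_ofFn]
    exact Finset.prod_congr rfl fun i _ => (hf i).symm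
  choose g hg using h6
  exact ⟨g, (Finset.prod_congr rfl fun j _ => hg j).symm⟩

/-- **The coordinates are algebraic over the field of the ratios of the traces.** -/
theorem coords_alg [CharZero L] {x : ∀ j, Fin (N j) → K} {j0 : ∀ j, Fin (N j)}
    (hj0 : ∀ j, x j (j0 j) = 1)
    (hgen : IntermediateField.adjoin L (⋃ j, Set.range (x j)) = ⊤)
    (hm : ∀ j, 2 * finrank L (fld L (x j)) ≤ m j + 1) {E : IntermediateField k L} {h : K}
    (hh : h ≠ 0) {c : L}
    (hE : ∀ g : ∀ j, Fin (m j) → Fin (N j), ∃ e : E, Algebra.trace L K (mult x g * h) = c * e)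
    (j : J) (i : Fin (N j)) : IsAlgebraic E (x j i) := by
  classical
  have hspan := span_mult (m := m) k hj0 hgen (fun j => by
    have := hm j
    omega)
  let F := fld L (x j)
  let hg : (∀ j, Fin (m j) → Fin (N j)) → F := fun g =>
    Algebra.trace F K ((∏ j' ∈ Finset.univ.erase j, ∏ l, x j' (g j' l)) * h)
  have hsplit : ∀ g, Algebra.trace L K (mult x g * h) =
      Algebra.trace L F ((∏ l, crd L (x j) (g j l)) * hg g) := by
    intro g
    rw [← Algebra.trace_trace (S := F)]
    congr 1
    have h1 : mult x g * h = (∏ l, crd L (x j) (g j l)) •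
        ((∏ j' ∈ Finset.univ.erase j, ∏ l, x j' (g j' l)) * h) := by
      rw [Algebra.smul_def, map_prod, mult, ← Finset.mul_prod_erase _ _ (Finset.mem_univ j),
        mul_assoc]
      rfl
    rw [h1, map_smul, smul_eq_mul]
  obtain ⟨g1, hg1⟩ : ∃ g, hg g ≠ 0 := by
    by_contra hcon
    push Not at hcon
    apply hh
    have h1 : ∀ z : K, Algebra.trace L K (z * h) = 0 := by
      intro z
      have hz : z ∈ Submodule.span L (Set.range (mult (m := m) x)) := by rw [hspan]; trivial
      induction hz using Submodule.span_induction with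
      | mem z hz =>
        obtain ⟨g, rfl⟩ := hz
        rw [hsplit, hcon, mul_zero, map_zero]
      | zero => rw [zero_mul, map_zero]
      | add a b _ _ ha hb => rw [add_mul, map_add, ha, hb, add_zero]
      | smul c a _ ha => rw [smul_mul_assoc, map_smul, ha, smul_zero]
    by_contra h0
    have h2 := h1 h⁻¹
    rw [inv_mul_cancel₀ h0] at h2
    have h3 : Algebra.trace L K 1 = (Module.finrank L K : L) := by
      have := Algebra.trace_algebraMap (R := L) (S := K) (1 : L)
      rw [map_one, nsmul_eq_mul, mul_one] at this
      exact this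
    rw [h3] at h2
    have h4 : 0 < Module.finrank L K := Module.finrank_pos
    have h5 : Module.finrank L K = 0 := by exact_mod_cast h2
    omega
  have hkey := coord_alg (k := k) (L := L) (K := F) (E := E) (x := crd L (x j)) (j0 := j0 j)
    (Subtype.ext (hj0 j)) (adjoin_crd (x j)) hg1 (c := c) (m := m j) (hm j) (fun f => by
      obtain ⟨e, he⟩ := hE (Function.update g1 j f)
      refine ⟨e, ?_⟩
      rw [← he, hsplit, Function.update_self]
      congr 2
      change Algebra.trace F K _ = Algebra.trace F K _
      congr 2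
      refine Finset.prod_congr rfl fun j' hj' => ?_
      rw [Function.update_of_ne (Finset.ne_of_mem_erase hj')]) i
  have h2 := hkey.algebraMap (A := K) 
  exact h2

end

end Pool.Agent.N95.PR
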